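import Pool.Agent.Helper76.FRMain

universe u

open AlgebraicGeometry Pool.Agent.Helper76.FReg

namespace Pool.Agent.Results.MP_0afa72_ag.VeroneseCone

/-- For every prime `p` and every algebraically closed field `k` of characteristic `p` there is a
normal affine surface `Spec A` over `k` with `A` strongly F-regular, which has a log resolution,
and a regular 1-form `σ` on its smooth locus that lifts to no log resolution. -/
theorem result (p : ℕ) [Fact p.Prime] (k : Type u) [Field k] [IsAlgClosed k] [CharP k p] :
    ∃ (A : Type u) (_ : CommRing A) (_ : IsDomain A) (_ : Algebra k A),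
      Algebra.FiniteType k A ∧ IsIntegrallyClosed A ∧ ringKrullDim A = 2 ∧
      StronglyFRegular p A ∧
      (∃ (Y : Scheme.{u}) (_ : IsIntegral Y) (π : Y ⟶ Spec (.of A)), IsLogResolution k π) ∧
      ∃ σ : Ω[FractionRing A⁄k], IsRegularOnSmoothLocus k A σ ∧
        ∀ (Y : Scheme.{u}) (_ : IsIntegral Y) (π : Y ⟶ Spec (.of A)),
          IsLogResolution k π → ¬ Lifts k π σ :=
  main p k

end Pool.Agent.Results.MP_0afa72_ag.VeroneseCone
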